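import Mathlib

set_option autoImplicit false

namespace Pool.Agent.Results.MP_64ebd5_nt.BTwoNotPrimitive

open Finset

/-- The `k`-th prime, `p 1 = 2`, `p 2 = 3`, ... -/
noncomputable def p (k : ℕ) : ℕ := Nat.nth Nat.Prime (k - 1)

/-- The sum of the positive divisors of `n`. -/
def sig (n : ℕ) : ℕ := ∑ d ∈ n.divisors, d

/-- `n ≥ 1` is pseudoperfect: it is the sum of a set of distinct divisors `d < n` of `n`. -/
def Pseudoperfect (n : ℕ) : Prop :=
  0 < n ∧ ∃ S : Finset ℕ, (∀ d ∈ S, d ∣ n ∧ d < n) ∧ ∑ d ∈ S, d = n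

/-- `n` is primitive pseudoperfect: pseudoperfect, and no divisor `d < n` of `n` is. -/
def PrimitivePseudoperfect (n : ℕ) : Prop :=
  Pseudoperfect n ∧ ∀ d, d ∣ n → d < n → ¬ Pseudoperfect d

/-- The least index `j ≥ k` with `σ(p_k ⋯ p_j) ≥ 2 p_k ⋯ p_j`. -/
noncomputable def f (k : ℕ) : ℕ :=
  sInf {j | k ≤ j ∧ 2 * ∏ l ∈ Icc k j, p l ≤ sig (∏ l ∈ Icc k j, p l)}

/-- `A_k = p_k p_{k+1} ⋯ p_{f(k)}`. -/
noncomputable def A (k : ℕ) : ℕ := ∏ l ∈ Icc k (f k), p l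

/-- `B_k = (A_k / p_{f(k)}) p_{f(k)+1} p_{f(k)+2}`. -/
noncomputable def B (k : ℕ) : ℕ := A k / p (f k) * p (f k + 1) * p (f k + 2)

theorem nth_eq (k q : ℕ) (hq : q.Prime) (h : Nat.count Nat.Prime q + 1 = k) : p k = q := by
  unfold p
  rw [← h, Nat.add_sub_cancel]
  exact Nat.nth_count hq

theorem p2 : p 2 = 3 := nth_eq _ _ (by norm_num) (by decide)
theorem p3 : p 3 = 5 := nth_eq _ _ (by norm_num) (by decide)
theorem p4 : p 4 = 7 := nth_eq _ _ (by norm_num) (by decide)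
theorem p5 : p 5 = 11 := nth_eq _ _ (by norm_num) (by decide)
theorem p6 : p 6 = 13 := nth_eq _ _ (by norm_num) (by decide +kernel)
theorem p7 : p 7 = 17 := nth_eq _ _ (by norm_num) (by decide +kernel)
theorem p8 : p 8 = 19 := nth_eq _ _ (by norm_num) (by decide +kernel)

theorem prod2 : ∏ l ∈ Icc 2 2, p l = 3 := by simp [p2]
theorem prod3 : ∏ l ∈ Icc 2 3, p l = 15 := by
  rw [Finset.prod_Icc_succ_top (by norm_num), prod2, p3]; norm_num
theorem prod4 : ∏ l ∈ Icc 2 4, p l = 105 := by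
  rw [Finset.prod_Icc_succ_top (by norm_num), prod3, p4]; norm_num
theorem prod5 : ∏ l ∈ Icc 2 5, p l = 1155 := by
  rw [Finset.prod_Icc_succ_top (by norm_num), prod4, p5]; norm_num
theorem prod6 : ∏ l ∈ Icc 2 6, p l = 15015 := by
  rw [Finset.prod_Icc_succ_top (by norm_num), prod5, p6]; norm_num

theorem sig3 : sig 3 = 4 := by decide +kernel
theorem sig15 : sig 15 = 24 := by decide +kernel
theorem sig105 : sig 105 = 192 := by decide +kernel
theorem sig1155 : sig 1155 = 2304 := by decide +kernel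
theorem sig15015 : sig 15015 = 32256 := by decide +kernel

theorem f2 : f 2 = 6 := by
  unfold f
  have hmem : 6 ∈ {j | 2 ≤ j ∧ 2 * ∏ l ∈ Icc 2 j, p l ≤ sig (∏ l ∈ Icc 2 j, p l)} := by
    refine ⟨by norm_num, ?_⟩
    rw [prod6, sig15015]; norm_num
  apply le_antisymm (Nat.sInf_le hmem)
  by_contra hlt
  push Not at hlt
  have h := Nat.sInf_mem (⟨6, hmem⟩ : Set.Nonempty _)
  obtain ⟨h1, h2⟩ := h
  set m := sInf {j | 2 ≤ j ∧ 2 * ∏ l ∈ Icc 2 j, p l ≤ sig (∏ l ∈ Icc 2 j, p l)}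
  interval_cases m
  · rw [prod2, sig3] at h2; omega
  · rw [prod3, sig15] at h2; omega
  · rw [prod4, sig105] at h2; omega
  · rw [prod5, sig1155] at h2; omega

theorem A2 : A 2 = 15015 := by
  unfold A
  rw [f2, prod6]

theorem B2 : B 2 = 373065 := by
  unfold B
  rw [f2, A2, p6, p7, p8]

/-- `19635 = 3·5·7·11·17` is pseudoperfect. -/
theorem pp : Pseudoperfect 19635 := by
  refine ⟨by norm_num, {6545, 3927, 2805, 1785, 1309, 1155, 935, 595, 561, 17, 1}, ?_, ?_⟩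
  · decide
  · decide

/-- The assertion of Q1 is false: for `k = 2` one has `f(2) = 6`, `A_2 = 15015`, `B_2 = 373065`, and
`B_2` has the proper divisor `19635`, which is pseudoperfect, so `B_2` is not primitive
pseudoperfect. -/
theorem result :
    (f 2 = 6 ∧ A 2 = 15015 ∧ B 2 = 373065 ∧ 19635 ∣ B 2 ∧ Pseudoperfect 19635 ∧
      ¬ PrimitivePseudoperfect (B 2)) ∧
    ¬ ∀ k : ℕ, 2 ≤ k → PrimitivePseudoperfect (A k) ∧ PrimitivePseudoperfect (B k) := by
  have h : ¬ PrimitivePseudoperfect (B 2) := by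
    intro h
    exact h.2 19635 (by rw [B2]; norm_num) (by rw [B2]; norm_num) pp
  refine ⟨⟨f2, A2, B2, by rw [B2]; norm_num, pp, h⟩, fun hall => h (hall 2 le_rfl).2⟩

end Pool.Agent.Results.MP_64ebd5_nt.BTwoNotPrimitive
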